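import Pool.Agent.H41.PS.Stm
import Mathlib

/-! Task ENUM of the project PS (helper41): enumeration of `u3` by the functions `pair`, `top`,
`flt`, `tree`. -/

set_option autoImplicit false

namespace Pool.Agent.H385.PS

open Pool.Agent.H41.PS

/-- the masks -/
def MM : ℕ → ℕ
  | 0 => M0
  | 1 => M1
  | 2 => M2
  | 3 => M3
  | 4 => M4
  | 5 => M5
  | 6 => M6
  | 7 => M7
  | _ => 0

/-- the bits below `j` -/
def tl : ℕ → ML
  | 0 => .nil
  | j + 1 => .cons (MM j) (2 ^ j) (tl j)

theorem ml_eq : ml = tl 8 := rfl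

/-- `w` is a sum of shifts of the list -/
inductive Sub : ML → ℕ → Prop
  | nil : Sub .nil 0
  | skip {m s : ℕ} {t : ML} {w : ℕ} : Sub t w → Sub (.cons m s t) w
  | add {m s : ℕ} {t : ML} {w : ℕ} : Sub t w → Sub (.cons m s t) (s ^^^ w)

theorem beq_t {a b : ℕ} (h : a = b) : Nat.beq a b = true := by
  rw [Nat.beq_eq]
  exact h

theorem beq_f {a b : ℕ} (h : a ≠ b) : Nat.beq a b = false := by
  cases hb : Nat.beq a b
  · rfl
  · rw [Nat.beq_eq] at hb
    exact absurd hb h

theorem tree_nil (X Z : ℕ) : tree X .nil Z = leaf X Z := rfl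

theorem tree_cons (X m s : ℕ) (t : ML) (Z : ℕ) :
    tree X (.cons m s t) Z = (tree X t Z && tree X t (sw m s Z)) := by
  have h : tree X (.cons m s t) Z =
      Bool.rec false (fc (tree X t) (sw m s Z)) (tree X t Z) := rfl
  rw [h, fc_eq]
  cases tree X t Z <;> rfl

theorem flt_cons (s1 s2 m s : ℕ) (t : ML) :
    flt s1 s2 (.cons m s t) =
      if s = s1 then flt s1 s2 t else if s = s2 then flt s1 s2 t else .cons m s (flt s1 s2 t) := by
  have h : flt s1 s2 (.cons m s t) = Bool.rec (Bool.rec (ML.cons m s (flt s1 s2 t))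
    (flt s1 s2 t) (Nat.beq s s2)) (flt s1 s2 t) (Nat.beq s s1) := rfl
  rw [h]
  by_cases h1 : s = s1
  · rw [if_pos h1, beq_t h1]
  · rw [if_neg h1, beq_f h1]
    by_cases h2 : s = s2
    · rw [if_pos h2, beq_t h2]
    · rw [if_neg h2, beq_f h2]

theorem getM_cons (s1 m s : ℕ) (t : ML) :
    getM s1 (.cons m s t) = if s = s1 then m else getM s1 t := by
  have h : getM s1 (.cons m s t) = Bool.rec (getM s1 t) m (Nat.beq s s1) := rfl
  rw [h]
  by_cases h1 : s = s1
  · rw [if_pos h1, beq_t h1]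
  · rw [if_neg h1, beq_f h1]

theorem top_cons (s1 s2 X m s : ℕ) (t : ML) (hs : s2 < s)
    (h : top s1 s2 X (.cons m s t) = true) :
    tree (X &&& m) (flt s1 s2 t) (sw m s X &&& m) = true ∧ top s1 s2 X t = true := by
  have h0 : top s1 s2 X (.cons m s t) = Bool.rec (Bool.rec false (top s1 s2 X t)
    (fc (fun Y => fc (fun Z => tree Y (flt s1 s2 t) Z) (Nat.land (sw m s X) m)) (Nat.land X m)))
    true (Nat.ble s s2) := rfl
  rw [h0, fc_eq, fc_eq] at h
  have h1 : Nat.ble s s2 = false := by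
    cases hb : Nat.ble s s2
    · rfl
    · have := Nat.le_of_ble_eq_true hb
      omega
  rw [h1] at h
  have h2 : (Bool.rec false (top s1 s2 X t)
    (tree (Nat.land X m) (flt s1 s2 t) (Nat.land (sw m s X) m)) : Bool) = true := h
  cases h3 : tree (Nat.land X m) (flt s1 s2 t) (Nat.land (sw m s X) m)
  · rw [h3] at h2
    exact absurd (show false = true from h2) (by decide)
  · rw [h3] at h2
    exact ⟨rfl, h2⟩

theorem mlok_flt (s1 s2 : ℕ) (l : ML) (h : MLOK l) : MLOK (flt s1 s2 l) := by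
  induction l with
  | nil => exact h
  | cons m s t ih =>
    rw [flt_cons]
    have ht := ih h.2
    split_ifs
    · exact ht
    · exact ht
    · exact ⟨h.1, ht⟩

theorem mlok_tl (n : ℕ) : MLOK (tl n) → ∀ j, j ≤ n → MLOK (tl j) ∧ (j < n → MaskOK (MM j) (2 ^ j)) := by
  induction n with
  | zero =>
    intro h j hj
    have : j = 0 := by omega
    subst this
    exact ⟨h, fun h => absurd h (by omega)⟩
  | succ n ih =>
    intro h j hj
    by_cases hjn : j = n + 1
    · subst hjn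
      exact ⟨h, fun h => absurd h (by omega)⟩
    · have h1 := ih h.2 j (by omega)
      refine ⟨h1.1, fun _ => ?_⟩
      by_cases hj2 : j = n
      · subst hj2
        exact h.1
      · exact h1.2 (by omega)

theorem getM_tl (n j : ℕ) (hj : j < n) : getM (2 ^ j) (tl n) = MM j := by
  induction n with
  | zero => omega
  | succ n ih =>
    have h : tl (n + 1) = .cons (MM n) (2 ^ n) (tl n) := rfl
    rw [h, getM_cons]
    by_cases hj2 : j = n
    · subst hj2
      rw [if_pos rfl]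
    · rw [if_neg (fun h => hj2 (Nat.pow_right_injective (le_refl 2) h).symm)]
      exact ih (by omega)

theorem top_tl (s1 s2 X n : ℕ) (h : top s1 s2 X (tl n) = true) (j : ℕ) (hj : j < n)
    (hs : s2 < 2 ^ j) :
    tree (X &&& MM j) (flt s1 s2 (tl j)) (sw (MM j) (2 ^ j) X &&& MM j) = true := by
  induction n with
  | zero => omega
  | succ n ih =>
    have h0 : tl (n + 1) = .cons (MM n) (2 ^ n) (tl n) := rfl
    rw [h0] at h
    have hle : 2 ^ j ≤ 2 ^ n := Nat.pow_le_pow_right (by norm_num) (by omega)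
    obtain ⟨h1, h2⟩ := top_cons s1 s2 X (MM n) (2 ^ n) (tl n) (by omega) h
    by_cases hj2 : j = n
    · subst hj2
      exact h1
    · exact ih h2 (by omega)

theorem sub_tl (j1 j2 n : ℕ) : ∀ w, w < 2 ^ n → w.testBit j1 = false → w.testBit j2 = false →
    Sub (flt (2 ^ j1) (2 ^ j2) (tl n)) w := by
  induction n with
  | zero =>
    intro w hw _ _
    have : w = 0 := by
      rw [pow_zero] at hw
      omega
    subst this
    exact Sub.nil
  | succ n ih =>
    intro w hw h1 h2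
    have h0 : tl (n + 1) = .cons (MM n) (2 ^ n) (tl n) := rfl
    rw [h0, flt_cons]
    have hlow : w.testBit n = false → w < 2 ^ n := by
      intro hb
      by_contra hlt
      have h3 : w / 2 ^ n = 1 := by
        rw [Nat.div_eq_iff (by positivity)]
        rw [pow_succ] at hw
        omega
      rw [Nat.testBit_eq_decide_div_mod_eq, h3] at hb
      simp at hb
    by_cases e1 : n = j1
    · rw [if_pos (by rw [e1])]
      exact ih w (hlow (e1 ▸ h1)) h1 h2
    · rw [if_neg (fun h => e1 (Nat.pow_right_injective (le_refl 2) h))]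
      by_cases e2 : n = j2
      · rw [if_pos (by rw [e2])]
        exact ih w (hlow (e2 ▸ h2)) h1 h2
      · rw [if_neg (fun h => e2 (Nat.pow_right_injective (le_refl 2) h))]
        cases hb : w.testBit n
        · exact Sub.skip (ih w (hlow hb) h1 h2)
        · have hw' : w = 2 ^ n ^^^ (w ^^^ 2 ^ n) := by
            rw [Nat.xor_comm w, ← Nat.xor_assoc, Nat.xor_self, Nat.zero_xor]
          rw [hw']
          refine Sub.add (ih _ ?_ ?_ ?_)
          · have hlt : w ^^^ 2 ^ n < 2 ^ (n + 1) :=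
              Nat.xor_lt_two_pow hw (Nat.pow_lt_pow_right (by norm_num) (by omega))
            have hbit : (w ^^^ 2 ^ n).testBit n = false := by
              rw [Nat.testBit_xor, hb, Nat.testBit_two_pow_self]
              rfl
            by_contra hge
            have h3 : (w ^^^ 2 ^ n) / 2 ^ n = 1 := by
              rw [Nat.div_eq_iff (by positivity)]
              rw [pow_succ] at hlt
              omega
            rw [Nat.testBit_eq_decide_div_mod_eq, h3] at hbit
            simp at hbit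
          · rw [Nat.testBit_xor, h1, Nat.testBit_two_pow_of_ne e1]
            rfl
          · rw [Nat.testBit_xor, h2, Nat.testBit_two_pow_of_ne e2]
            rfl

theorem sub_lt {l : ML} {w : ℕ} (h : Sub l w) (hl : MLOK l) : w < 2 ^ 13 := by
  induction h with
  | nil => norm_num
  | skip _ ih => exact ih hl.2
  | add _ ih =>
    obtain ⟨⟨j, hj, hs, _⟩, h2⟩ := hl
    refine Nat.xor_lt_two_pow ?_ (ih h2)
    rw [hs]
    exact Nat.pow_lt_pow_right (by norm_num) (by omega)

theorem tree_all (hsw : S_SW) {l : ML} {w : ℕ} (h : Sub l w) (hl : MLOK l) (X : ℕ) :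
    ∀ Z, Z < 2 ^ 8192 → tree X l Z = true → ∃ Z', Z' < 2 ^ 8192 ∧ leaf X Z' = true ∧
      ∀ i < 8192, Z'.testBit i = Z.testBit (i ^^^ w) := by
  induction h with
  | nil =>
    intro Z hZ h
    exact ⟨Z, hZ, h, fun i _ => by rw [Nat.xor_zero]⟩
  | skip hsub ih =>
    intro Z hZ h
    rw [tree_cons, Bool.and_eq_true] at h
    exact ih hl.2 Z hZ h.1
  | add hsub ih =>
    rename_i m s t w
    intro Z hZ h
    rw [tree_cons, Bool.and_eq_true] at h
    obtain ⟨h1, h2⟩ := hsw m s Z hl.1 hZ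
    obtain ⟨Z', h3, h4, h5⟩ := ih hl.2 _ h1 h.2
    refine ⟨Z', h3, h4, fun i hi => ?_⟩
    have hw := sub_lt hsub hl.2
    have hiw : i ^^^ w < 8192 := Nat.xor_lt_two_pow (n := 13) hi hw
    rw [h5 i hi, h2 _ hiw]
    congr 1
    rw [Nat.xor_assoc, Nat.xor_comm w s]

theorem mask_spec {j : ℕ} (h : MaskOK (MM j) (2 ^ j)) :
    MM j < 2 ^ 8192 ∧ ∀ i < 8192, (MM j).testBit i = !i.testBit j := by
  obtain ⟨k, _, hk, h1, h2⟩ := h
  have : j = k := Nat.pow_right_injective (le_refl 2) hk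
  subst this
  exact ⟨h1, h2⟩

theorem t_ENUM : S_MASK → S_SW → S_ENUM := by
  intro hmask hsw u1 u2 u3 h1 h1' h12 h2' h23 h3' b1 b2 b3 hp
  unfold S_MASK at hmask
  rw [ml_eq] at hmask
  have hmk := mlok_tl 8 hmask
  set j1 := Nat.log2 u1 with hj1
  set j2 := Nat.log2 u2 with hj2
  set j3 := Nat.log2 u3 with hj3
  have hj1lt : j1 < 8 := by
    rw [hj1, Nat.log2_lt (by omega)]
    omega
  have hj2lt : j2 < 8 := by
    rw [hj2, Nat.log2_lt (by omega)]
    omega
  have hj3lt : j3 < 8 := by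
    rw [hj3, Nat.log2_lt (by omega)]
    omega
  have ht3 : u3.testBit j3 = true := by
    rw [hj3]
    exact Nat.testBit_log2 (by omega)
  have hu3lt : u3 < 2 ^ (j3 + 1) := by
    rw [hj3]
    exact Nat.lt_log2_self
  have hu3ge : 2 ^ j3 ≤ u3 := by
    rw [hj3]
    exact Nat.log2_self_le (by omega)
  have hu2ge : 2 ^ j2 ≤ u2 := by
    rw [hj2]
    exact Nat.log2_self_le (by omega)
  have hj23 : j2 < j3 := by
    rcases lt_trichotomy j2 j3 with h | h | h
    · exact h
    · rw [h, ht3] at b3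
      exact absurd b3 (by decide)
    · exfalso
      have h4 : 2 ^ (j3 + 1) ≤ 2 ^ j2 := Nat.pow_le_pow_right (by norm_num) (by omega)
      omega
  have hs23 : 2 ^ j2 < 2 ^ j3 := Nat.pow_lt_pow_right (by norm_num) hj23
  -- unfold `pair`
  set X : ℕ := XX u1 u2 &&& (MM j1 &&& MM j2) with hX
  have hpair : pair u1 u2 = top (2 ^ j1) (2 ^ j2) X (tl 8) := by
    unfold pair
    simp only [fc_eq]
    have e1 : Nat.shiftLeft 1 (Nat.log2 u1) = 2 ^ j1 := by
      show 1 <<< Nat.log2 u1 = _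
      rw [Nat.shiftLeft_eq, one_mul]
    have e2 : Nat.shiftLeft 1 (Nat.log2 u2) = 2 ^ j2 := by
      show 1 <<< Nat.log2 u2 = _
      rw [Nat.shiftLeft_eq, one_mul]
    rw [e1, e2, ml_eq, getM_tl 8 j1 hj1lt, getM_tl 8 j2 hj2lt]
    rfl
  rw [hpair] at hp
  obtain ⟨m1lt, m1⟩ := mask_spec ((hmk j1 hj1lt.le).2 hj1lt)
  obtain ⟨m2lt, m2⟩ := mask_spec ((hmk j2 hj2lt.le).2 hj2lt)
  obtain ⟨m3lt, m3⟩ := mask_spec ((hmk j3 hj3lt.le).2 hj3lt)
  have hXlt : X < 2 ^ 8192 := Nat.and_lt_two_pow _ (Nat.and_lt_two_pow _ m2lt)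
  have hXbit : ∀ i < 8192, i.testBit j1 = false → i.testBit j2 = false →
      X.testBit i = (XX u1 u2).testBit i := by
    intro i hi h4 h5
    rw [hX, Nat.testBit_and, Nat.testBit_and, m1 i hi, m2 i hi, h4, h5]
    simp
  have ht := top_tl (2 ^ j1) (2 ^ j2) X 8 hp j3 hj3lt hs23
  obtain ⟨hswlt, hswb⟩ := hsw (MM j3) (2 ^ j3) X ((hmk j3 hj3lt.le).2 hj3lt) hXlt
  have hZ0lt : sw (MM j3) (2 ^ j3) X &&& MM j3 < 2 ^ 8192 := Nat.and_lt_two_pow _ m3lt
  -- the lower part of `u3`
  set w : ℕ := u3 ^^^ 2 ^ j3 with hw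
  have hwu : w ^^^ 2 ^ j3 = u3 := by
    rw [hw, Nat.xor_assoc, Nat.xor_self, Nat.xor_zero]
  have hwlt : w < 2 ^ j3 := by
    have hlt : w < 2 ^ (j3 + 1) :=
      Nat.xor_lt_two_pow hu3lt (Nat.pow_lt_pow_right (by norm_num) (by omega))
    have hbit : w.testBit j3 = false := by
      rw [hw, Nat.testBit_xor, ht3, Nat.testBit_two_pow_self]
      rfl
    by_contra hge
    have h3 : w / 2 ^ j3 = 1 := by
      rw [Nat.div_eq_iff (by positivity)]
      rw [pow_succ] at hlt
      omega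
    rw [Nat.testBit_eq_decide_div_mod_eq, h3] at hbit
    simp at hbit
  have hj13 : j3 ≠ j1 := by
    intro h
    rw [← h, ht3] at b2
    exact absurd b2 (by decide)
  have hw1 : w.testBit j1 = false := by
    rw [hw, Nat.testBit_xor, b2, Nat.testBit_two_pow_of_ne hj13]
    rfl
  have hw2 : w.testBit j2 = false := by
    rw [hw, Nat.testBit_xor, b3, Nat.testBit_two_pow_of_ne hj23.ne']
    rfl
  have hsub := sub_tl j1 j2 j3 w hwlt hw1 hw2
  obtain ⟨Z, hZlt, hleaf, hZ⟩ := tree_all hsw hsub (mlok_flt _ _ _ (hmk j3 hj3lt.le).1)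
    (X &&& MM j3) _ hZ0lt ht
  refine ⟨X &&& MM j3, Z, Nat.and_lt_two_pow _ m3lt, hZlt, hleaf, fun i hi i1 i2 i3 => ⟨?_, ?_⟩⟩
  · rw [Nat.testBit_and, hXbit i hi i1 i2, m3 i hi, i3]
    simp
  · have hw13 : w < 2 ^ 13 := lt_trans hwlt (Nat.pow_lt_pow_right (by norm_num) (by omega))
    have hiw : i ^^^ w < 8192 := Nat.xor_lt_two_pow (n := 13) hi hw13
    have hu13 : u3 < 2 ^ 13 := by
      norm_num
      omega
    have hiu : i ^^^ u3 < 8192 := Nat.xor_lt_two_pow (n := 13) hi hu13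
    have hw3 : w.testBit j3 = false := Nat.testBit_lt_two_pow hwlt
    have hmb : (MM j3).testBit (i ^^^ w) = true := by
      rw [m3 _ hiw, Nat.testBit_xor, i3, hw3]
      rfl
    have hxx : i ^^^ w ^^^ 2 ^ j3 = i ^^^ u3 := by
      rw [Nat.xor_assoc, hwu]
    rw [hZ i hi, Nat.testBit_and, hmb, Bool.and_true, hswb _ hiw, hxx]
    apply hXbit _ hiu
    · rw [Nat.testBit_xor, i1, b2]
      rfl
    · rw [Nat.testBit_xor, i2, b3]
      rfl

end Pool.Agent.H385.PS
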